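import Pool.Agent.Helper68.KK.P1

/-!
# Project KK, blocks P2 and P3: many signs changed
-/

set_option autoImplicit false

namespace Pool.Agent.Helper32.KK

open Finset

/-- P2 -/
theorem flip_many (s s' : Nat.Primes → ℝ) (hs : ∀ p, s p = 1 ∨ s p = -1) (hs' : ∀ p, s' p = 1 ∨ s' p = -1) (T : Finset Nat.Primes)
    (hT : ∀ p, p ∉ T → s' p = s p) {N : ℕ} {B : ℝ} (hB : 0 ≤ B) (h : ∀ M ≤ N, ∀ x : ℝ, ‖FF (sgn s) M x‖ ≤ B * Real.sqrt M) :
    ∀ M ≤ N, ∀ x : ℝ, ‖FF (sgn s') M x - FF (sgn s) M x‖ ≤ (Real.exp (7 * ∑ p ∈ T, wt p) - 1) * B * Real.sqrt M := by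
  classical
  induction T using Finset.induction_on generalizing s' with
  | empty =>
    intro M hM x
    have : s' = s := funext fun p => hT p (Finset.notMem_empty p)
    subst this
    simp
  | insert p T hp ih =>
    intro M hM x
    have hs1 : ∀ q, Function.update s' p (s p) q = 1 ∨ Function.update s' p (s p) q = -1 := by
      intro q
      by_cases hq : q = p
      · subst hq
        rw [Function.update_self]
        exact hs q
      · rw [Function.update_of_ne hq]
        exact hs' q
    have hT1 : ∀ q, q ∉ T → Function.update s' p (s p) q = s q := by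
      intro q hq
      by_cases hqp : q = p
      · subst hqp
        rw [Function.update_self]
      · rw [Function.update_of_ne hqp]
        exact hT q (by
          rw [Finset.mem_insert, not_or]
          exact ⟨hqp, hq⟩)
    have h1 := ih (Function.update s' p (s p)) hs1 hT1
    set s₁ := Function.update s' p (s p) with hs₁
    set S := ∑ q ∈ T, wt q with hS
    -- the bound for the intermediate signs
    have h2 : ∀ M ≤ N, ∀ x : ℝ, ‖FF (sgn s₁) M x‖ ≤ (Real.exp (7 * S) * B) * Real.sqrt M := by
      intro M hM x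
      have h3 := h1 M hM x
      have h4 := h M hM x
      have h5 : FF (sgn s₁) M x = (FF (sgn s₁) M x - FF (sgn s) M x) + FF (sgn s) M x := by ring
      rw [h5]
      refine (norm_add_le _ _).trans ?_
      have h6 : Real.exp (7 * S) * B * Real.sqrt M = (Real.exp (7 * S) - 1) * B * Real.sqrt M + B * Real.sqrt M := by ring
      rw [h6]
      exact add_le_add h3 h4
    have h7 := flip_one s₁ hs1 p (s' p) (hs' p) (by positivity) h2 M hM x
    have h8 : Function.update s₁ p (s' p) = s' := by
      rw [hs₁, Function.update_idem, Function.update_eq_self]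
    rw [h8] at h7
    have h9 := h1 M hM x
    have h10 : FF (sgn s') M x - FF (sgn s) M x =
        (FF (sgn s') M x - FF (sgn s₁) M x) + (FF (sgn s₁) M x - FF (sgn s) M x) := by ring
    rw [h10]
    refine (norm_add_le _ _).trans ((add_le_add h7 h9).trans ?_)
    rw [Finset.sum_insert hp, ← hS, mul_add, Real.exp_add]
    have h11 : 7 * wt p + 1 ≤ Real.exp (7 * wt p) := Real.add_one_le_exp _
    have h12 : 0 ≤ B * Real.sqrt M := by positivity
    have h13 : 0 ≤ Real.exp (7 * S) := (Real.exp_pos _).le
    have h14 : 7 * wt p * (Real.exp (7 * S) * B) * Real.sqrt M + (Real.exp (7 * S) - 1) * B * Real.sqrt M =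
        ((7 * wt p + 1) * Real.exp (7 * S) - 1) * (B * Real.sqrt M) := by ring
    rw [h14]
    have h15 : (Real.exp (7 * wt p) * Real.exp (7 * S) - 1) * B * Real.sqrt M =
        (Real.exp (7 * wt p) * Real.exp (7 * S) - 1) * (B * Real.sqrt M) := by ring
    rw [h15]
    refine mul_le_mul_of_nonneg_right ?_ h12
    have := mul_le_mul_of_nonneg_right h11 h13
    linarith

/-- P3 -/
theorem sgn_congr (s s' : Nat.Primes → ℝ) {N : ℕ} (h : ∀ p : Nat.Primes, (p : ℕ) ≤ N → s' p = s p) (x : ℝ) :
    FF (sgn s') N x = FF (sgn s) N x := by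
  unfold FF
  refine Finset.sum_congr rfl fun n hn => ?_
  have hn' := Finset.mem_Icc.1 hn
  have : sgn s' n = sgn s n := by
    rw [P1.sgn_eq, P1.sgn_eq]
    split_ifs with hsq
    · refine Finset.prod_congr rfl fun q hq => ?_
      have hq1 := Nat.prime_of_mem_primeFactors hq
      have hq2 := Nat.dvd_of_mem_primeFactors hq
      unfold P1.ex
      rw [dif_pos hq1, dif_pos hq1]
      exact h ⟨q, hq1⟩ ((Nat.le_of_dvd (by omega) hq2).trans hn'.2)
    · rfl
  rw [this]

end Pool.Agent.Helper32.KK
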